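import Pool.Agent.H96.HK.Targets

/-! Modules FB of hf_modules (MP_e94f6f_an): elementary facts about profiles. -/

set_option autoImplicit false

open Set Filter Topology Pool.Agent.H96.HK
open scoped ContDiff

namespace Pool.Agent.H87.HF

/-- a differentiable function equal to `c x + d` on `[1, ∞)` has derivative `c` there -/
theorem deriv_right {f : ℝ → ℝ} {c d : ℝ} (hf : Differentiable ℝ f)
    (h : ∀ s, 1 ≤ s → f s = c * s + d) {s : ℝ} (hs : 1 ≤ s) : deriv f s = c := by
  have h1 : HasDerivWithinAt f (deriv f s) (Ici 1) s := (hf s).hasDerivAt.hasDerivWithinAt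
  have h2 : HasDerivWithinAt (fun x => c * x + d) c (Ici 1) s := by
    have := ((hasDerivAt_id s).const_mul c).add_const d
    rw [mul_one] at this
    exact this.hasDerivWithinAt
  have h3 : HasDerivWithinAt f c (Ici 1) s :=
    h2.congr (fun x hx => h x hx) (h s hs)
  exact (uniqueDiffOn_Ici 1 s hs).eq_deriv _ h1 h3

theorem fb : T_FB := by
  intro F hF
  have hd : Differentiable ℝ F ∧ ContDiff ℝ ∞ (deriv F) := contDiff_infty_iff_deriv.1 hF.smooth
  have hd1 : Differentiable ℝ (deriv F) ∧ ContDiff ℝ ∞ (deriv (deriv F)) :=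
    contDiff_infty_iff_deriv.1 hd.2
  have hmono : Monotone (deriv F) := monotone_of_deriv_nonneg hd1.1 hF.convex
  have hfar : ∀ s, 1 ≤ s → F s = 1 * s + 0 := by
    intro s hs
    rw [hF.far s (by rw [abs_of_nonneg (by linarith)]; exact hs), abs_of_nonneg (by linarith)]
    ring
  have far1 : ∀ s, 1 ≤ s → deriv F s = 1 := fun s hs => deriv_right hd.1 hfar hs
  have odd : ∀ s, deriv F (-s) = -deriv F s := by
    intro s
    have h1 : deriv (fun x => F (-x)) s = -deriv F (-s) := deriv_comp_neg F s
    have h2 : (fun x => F (-x)) = F := funext hF.even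
    rw [h2] at h1
    linarith
  have odd2 : ∀ s, deriv (deriv F) (-s) = deriv (deriv F) s := by
    intro s
    have h1 : deriv (fun x => deriv F (-x)) s = -deriv (deriv F) (-s) := deriv_comp_neg (deriv F) s
    have h2 : (fun x => deriv F (-x)) = fun x => -deriv F x := funext odd
    rw [h2] at h1
    have h3 : deriv (fun x => -deriv F x) s = -deriv (deriv F) s := deriv.fun_neg
    rw [h3] at h1
    linarith
  have hle1 : ∀ s, deriv F s ≤ 1 := by
    intro s
    have h1 := hmono (le_max_left s 1)
    rw [far1 (max s 1) (le_max_right s 1)] at h1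
    exact h1
  have d1 : ∀ s, |deriv F s| ≤ 1 := by
    intro s
    rw [abs_le]
    have h1 := hle1 (-s)
    rw [odd] at h1
    exact ⟨by linarith, hle1 s⟩
  have hz : deriv F 0 = 0 := by
    have := odd 0
    rw [neg_zero] at this
    linarith
  have d0 : ∀ s, 0 ≤ s * deriv F s := by
    intro s
    rcases le_total 0 s with h | h
    · have h1 := hmono h
      rw [hz] at h1
      exact mul_nonneg h h1
    · have h1 := hmono h
      rw [hz] at h1
      exact mul_nonneg_of_nonpos_of_nonpos h h1
  -- `F s ≥ |s|`
  have hle0 : ∀ s, 0 ≤ s → s ≤ F s := by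
    intro s hs
    rcases le_or_gt 1 s with h | h
    · rw [hfar s h]
      linarith
    · have h1 := image_sub_le_mul_sub_of_deriv_le hd.1 hle1 h.le
      rw [hfar 1 le_rfl] at h1
      linarith
  have le : ∀ s, |s| ≤ F s := by
    intro s
    rcases le_total 0 s with h | h
    · rw [abs_of_nonneg h]
      exact hle0 s h
    · rw [abs_of_nonpos h, ← hF.even s]
      exact hle0 (-s) (by linarith)
  have dl : ∀ s, s * deriv F s ≤ F s := by
    intro s
    calc s * deriv F s ≤ |s * deriv F s| := le_abs_self _
      _ = |s| * |deriv F s| := abs_mul _ _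
      _ ≤ |s| * 1 := mul_le_mul_of_nonneg_left (d1 s) (abs_nonneg _)
      _ = |s| := mul_one _
      _ ≤ F s := le s
  -- convexity
  have tanu : ∀ S s, F S + deriv F S * (s - S) ≤ F s := by
    intro S s
    rcases le_total S s with h | h
    · have h1 := Convex.mul_sub_le_image_sub_of_le_deriv (convex_Ici S) (f := F)
        hd.1.continuous.continuousOn hd.1.differentiableOn (C := deriv F S) (by
          intro x hx
          rw [interior_Ici] at hx
          exact hmono (le_of_lt hx)) S self_mem_Ici s h h
      linarith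
    · have h1 := Convex.image_sub_le_mul_sub_of_deriv_le (convex_Iic S) (f := F)
        hd.1.continuous.continuousOn hd.1.differentiableOn (C := deriv F S) (by
          intro x hx
          rw [interior_Iic] at hx
          exact hmono (le_of_lt hx)) s h S self_mem_Iic h
      have e1 : deriv F S * (s - S) = -(deriv F S * (S - s)) := by ring
      linarith
  have tan : ∀ S s, |F S + deriv F S * (s - S)| ≤ F s := by
    intro S s
    rw [abs_le]
    refine ⟨?_, tanu S s⟩
    have h1 := tanu S (-s)
    rw [hF.even] at h1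
    have h2 := dl S
    have e1 : deriv F S * (-s - S) = -(deriv F S * (s - S)) - 2 * (S * deriv F S) := by ring
    linarith
  have m0 : ∀ s, F 0 ≤ F s := by
    intro s
    have := tanu 0 s
    rw [hz] at this
    linarith
  have one0 : ∀ s, 0 ≤ s → s ≤ 1 → F s ≤ 1 := by
    intro s h0 h1
    have h2 := tanu s 1
    rw [hfar 1 le_rfl] at h2
    have h3 : 0 ≤ deriv F s := by
      have := hmono h0
      rwa [hz] at this
    have h4 : 0 ≤ deriv F s * (1 - s) := mul_nonneg h3 (by linarith)
    linarith
  have one : ∀ s, |s| ≤ 1 → F s ≤ 1 := by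
    intro s hs
    rcases le_total 0 s with h | h
    · rw [abs_of_nonneg h] at hs
      exact one0 s h hs
    · rw [abs_of_nonpos h] at hs
      rw [← hF.even s]
      exact one0 (-s) (by linarith) hs
  have up : ∀ s, F s ≤ 1 + |s| := by
    intro s
    rcases le_total |s| 1 with h | h
    · have := one s h
      have := abs_nonneg s
      linarith
    · rw [hF.far s h]
      linarith
  have far2p : ∀ s, 1 ≤ s → deriv (deriv F) s = 0 := by
    intro s hs
    refine deriv_right (c := 0) (d := 1) hd1.1 (fun x hx => ?_) hs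
    rw [far1 x hx]
    ring
  have far2 : ∀ s, 1 ≤ |s| → deriv (deriv F) s = 0 := by
    intro s hs
    rcases le_total 0 s with h | h
    · rw [abs_of_nonneg h] at hs
      exact far2p s hs
    · rw [abs_of_nonpos h] at hs
      rw [← odd2 s]
      exact far2p (-s) hs
  obtain ⟨B, hB⟩ := isCompact_Icc.exists_bound_of_continuousOn (s := Icc (-1 : ℝ) 1)
    (f := deriv (deriv F)) hd1.2.continuous.continuousOn
  have hF0 := hF.pos 0
  refine ⟨max 1 (max B (B / F 0)), ?_⟩
  have hK1 : (1 : ℝ) ≤ max 1 (max B (B / F 0)) := le_max_left _ _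
  have hKB : B ≤ max 1 (max B (B / F 0)) := (le_max_left _ _).trans (le_max_right _ _)
  have hKB0 : B / F 0 ≤ max 1 (max B (B / F 0)) := (le_max_right _ _).trans (le_max_right _ _)
  set K : ℝ := max 1 (max B (B / F 0)) with hK
  have hB' : ∀ s, |s| ≤ 1 → deriv (deriv F) s ≤ B := by
    intro s hs
    have := hB s (abs_le.1 hs)
    rw [Real.norm_eq_abs] at this
    exact (le_abs_self _).trans this
  refine ⟨hK1, le, d1, d0, dl, tan, m0, up, one, ?_, ?_, far1, odd, far2, hd.2, hd1.2⟩
  · intro s
    rcases le_total |s| 1 with h | h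
    · exact (hB' s h).trans hKB
    · rw [far2 s h]
      linarith
  · intro s
    have hFs := hF.pos s
    rcases le_total |s| 1 with h | h
    · have h1 : B = B / F 0 * F 0 := by field_simp
      calc deriv (deriv F) s ≤ B := hB' s h
        _ = B / F 0 * F 0 := h1
        _ ≤ K * F 0 := mul_le_mul_of_nonneg_right hKB0 hF0.le
        _ ≤ K * F s := mul_le_mul_of_nonneg_left (m0 s) (by linarith)
    · rw [far2 s h]
      exact mul_nonneg (by linarith) hFs.le

end Pool.Agent.H87.HF
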