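import Pool.Agent.H96.HK.Targets

/-! Module SEP of hf_modules (MP_e94f6f_an): separation of variables. -/

set_option autoImplicit false

open Set Filter Topology Pool.Agent.H96.HK
open scoped ContDiff

namespace Pool.Agent.H87.HF

theorem sep : T_SEP := by
  intro F hF m v κ p hv
  have hd : Differentiable ℝ F ∧ ContDiff ℝ ∞ (deriv F) := contDiff_infty_iff_deriv.1 hF.smooth
  have hd1 : Differentiable ℝ (deriv F) ∧ ContDiff ℝ ∞ (deriv (deriv F)) :=
    contDiff_infty_iff_deriv.1 hd.2
  have hv1 : Differentiable ℝ v := hv.differentiable (by norm_num)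
  have hv2 : ContDiff ℝ 1 (deriv v) := by
    have h : ContDiff ℝ (1 + 1) v := hv
    exact (contDiff_succ_iff_deriv.1 h).2.2
  have hv3 : Differentiable ℝ (deriv v) := hv2.differentiable (by norm_num)
  set q : ℝ → ℝ := fun s => (√(F s))⁻¹ with hq
  have hqC : ContDiff ℝ 2 q := by
    have h1 : ContDiff ℝ 2 F := contDiff_infty.1 hF.smooth 2
    have h2 : ContDiff ℝ 2 (fun s => √(F s)) := h1.sqrt (fun s => (hF.pos s).ne')
    exact h2.inv (fun s => (Real.sqrt_pos.2 (hF.pos s)).ne')
  have hqd : ∀ s, HasDerivAt q (-(deriv F s / (2 * F s)) * q s) s := by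
    intro s
    have hs := Real.sqrt_pos.2 (hF.pos s)
    have h1 := ((hd.1 s).hasDerivAt.sqrt (hF.pos s).ne').inv hs.ne'
    refine h1.congr_deriv ?_
    rw [Real.sq_sqrt (hF.pos s).le]
    simp only [hq]
    have := (hF.pos s).ne'
    field_simp
  have hrd : ∀ s, HasDerivAt (fun s => deriv F s / (2 * F s))
      ((deriv (deriv F) s * (2 * F s) - deriv F s * (2 * deriv F s)) / (2 * F s) ^ 2) s := by
    intro s
    exact (hd1.1 s).hasDerivAt.div ((hd.1 s).hasDerivAt.const_mul 2)
      (by have := (hF.pos s).ne'; positivity)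
  -- first derivative of `q v`
  have hu : ∀ s, HasDerivAt (fun s => q s * v s)
      (q s * (deriv v s - deriv F s / (2 * F s) * v s)) s := by
    intro s
    refine ((hqd s).mul (hv1 s).hasDerivAt).congr_deriv ?_
    ring
  have hu2 : ∀ s, HasDerivAt (fun s => q s * (deriv v s - deriv F s / (2 * F s) * v s))
      (-(deriv F s / (2 * F s)) * q s * (deriv v s - deriv F s / (2 * F s) * v s) +
        q s * (deriv (deriv v) s - (((deriv (deriv F) s * (2 * F s) -
          deriv F s * (2 * deriv F s)) / (2 * F s) ^ 2) * v s +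
          deriv F s / (2 * F s) * deriv v s))) s := by
    intro s
    exact (hqd s).mul ((hv3 s).hasDerivAt.sub ((hrd s).mul (hv1 s).hasDerivAt))
  set f : X → ℝ := fun p : X => (√(F p.1))⁻¹ * v p.1 * Real.cos (m * p.2 + κ) with hf
  have hds : ds f = fun p : X => (q p.1 * (deriv v p.1 - deriv F p.1 / (2 * F p.1) * v p.1)) *
      Real.cos (m * p.2 + κ) := by
    funext x
    unfold ds
    exact ((hu x.1).mul_const (Real.cos (m * x.2 + κ))).deriv
  have hdss : ds (ds f) p = (-(deriv F p.1 / (2 * F p.1)) * q p.1 *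
      (deriv v p.1 - deriv F p.1 / (2 * F p.1) * v p.1) +
        q p.1 * (deriv (deriv v) p.1 - (((deriv (deriv F) p.1 * (2 * F p.1) -
          deriv F p.1 * (2 * deriv F p.1)) / (2 * F p.1) ^ 2) * v p.1 +
          deriv F p.1 / (2 * F p.1) * deriv v p.1))) * Real.cos (m * p.2 + κ) := by
    rw [hds]
    unfold ds
    exact ((hu2 p.1).mul_const (Real.cos (m * p.2 + κ))).deriv
  have hlin : ∀ b : ℝ, HasDerivAt (fun b : ℝ => (m : ℝ) * b + κ) (m : ℝ) b := by
    intro b
    have := ((hasDerivAt_id b).const_mul (m : ℝ)).add_const κ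
    rw [mul_one] at this
    exact this
  have hdp : dp f = fun p : X => (q p.1 * v p.1) * (-Real.sin (m * p.2 + κ) * m) := by
    funext x
    unfold dp
    exact (((hlin x.2).cos).const_mul (q x.1 * v x.1)).deriv
  have hdpp : dp (dp f) p = (q p.1 * v p.1) * (-(Real.cos (m * p.2 + κ) * m) * m) := by
    rw [hdp]
    unfold dp
    exact ((((hlin p.2).sin).neg.mul_const (m : ℝ)).const_mul (q p.1 * v p.1)).deriv
  refine ⟨?_, ?_⟩
  · have h1 : ContDiff ℝ 2 (fun p : X => q p.1) := hqC.comp contDiff_fst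
    have h2 : ContDiff ℝ 2 (fun p : X => v p.1) := hv.comp contDiff_fst
    have h3 : ContDiff ℝ 2 (fun p : X => Real.cos (m * p.2 + κ)) :=
      Real.contDiff_cos.comp ((contDiff_const.mul contDiff_snd).add contDiff_const)
    exact (h1.mul h2).mul h3
  · unfold LB
    rw [hdss, hdpp, hds]
    show _ = q p.1 * (deriv (deriv v) p.1 - Vm F m p.1 * v p.1) * Real.cos (m * p.2 + κ)
    unfold Vm
    have := (hF.pos p.1).ne'
    field_simp
    ring

end Pool.Agent.H87.HF
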