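import Pool.Agent.H96.HK.Targets

/-! Module VM of hf_modules (MP_e94f6f_an): the potentials of the modes. -/

set_option autoImplicit false

open Set Filter Topology Pool.Agent.H96.HK
open scoped ContDiff

namespace Pool.Agent.H87.HF

theorem vm (hFB : T_FB) : T_VM := by
  intro F hF
  obtain ⟨K, hb⟩ := hFB F hF
  have hd : Differentiable ℝ F ∧ ContDiff ℝ ∞ (deriv F) := contDiff_infty_iff_deriv.1 hF.smooth
  have hd1 : Differentiable ℝ (deriv F) ∧ ContDiff ℝ ∞ (deriv (deriv F)) :=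
    contDiff_infty_iff_deriv.1 hd.2
  have hd2 : Differentiable ℝ (deriv (deriv F)) ∧ ContDiff ℝ ∞ (deriv (deriv (deriv F))) :=
    contDiff_infty_iff_deriv.1 hd1.2
  -- the third derivative is bounded
  obtain ⟨K3, hK3⟩ : ∃ K3 : ℝ, ∀ s, |deriv (deriv (deriv F)) s| ≤ K3 := by
    obtain ⟨B, hB⟩ := isCompact_Icc.exists_bound_of_continuousOn (s := Icc (-1 : ℝ) 1)
      (f := deriv (deriv (deriv F))) hd2.2.continuous.continuousOn
    refine ⟨max B 0, fun s => ?_⟩
    rcases le_or_gt |s| 1 with h | h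
    · exact (hB s (abs_le.1 h)).trans (le_max_left _ _)
    · have h1 : deriv (deriv F) =ᶠ[𝓝 s] fun _ => (0 : ℝ) := by
        have h2 : ∀ᶠ y in 𝓝 s, 1 < |y| := (continuous_abs.tendsto s).eventually (lt_mem_nhds h)
        filter_upwards [h2] with y hy
        exact hb.far2 y hy.le
      rw [h1.deriv_eq, deriv_const, abs_zero]
      exact le_max_right _ _
  have hK30 : 0 ≤ K3 := (abs_nonneg _).trans (hK3 0)
  have hF0 := hF.pos 0
  have hK1 := hb.K1
  set B : ℝ := (F 0)⁻¹ with hBdef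
  have hB0 : 0 < B := inv_pos.2 hF0
  set g : ℝ → ℝ := fun s => (F s)⁻¹ with hg
  have hg0 : ∀ s, 0 < g s := fun s => inv_pos.2 (hF.pos s)
  have hgB : ∀ s, g s ≤ B := fun s => inv_anti₀ hF0 (hb.m0 s)
  have hgabs : ∀ s, |g s| ≤ B := fun s => by rw [abs_of_pos (hg0 s)]; exact hgB s
  have h2abs : ∀ s, |deriv (deriv F) s| ≤ K := fun s => by
    rw [abs_of_nonneg (hF.convex s)]
    exact hb.d2 s
  have hV : ∀ m : ℕ, Vm F m = fun s => (m : ℝ) ^ 2 * g s ^ 2 + deriv (deriv F) s * g s / 2 -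
      (deriv F s * g s) ^ 2 / 4 := by
    intro m
    funext s
    unfold Vm
    simp only [hg]
    have := (hF.pos s).ne'
    field_simp
  -- derivative
  have hgd : ∀ s, HasDerivAt g (-(deriv F s) * g s ^ 2) s := by
    intro s
    have h1 := (hd.1 s).hasDerivAt.inv (hF.pos s).ne'
    have e1 : -deriv F s / F s ^ 2 = -(deriv F s) * g s ^ 2 := by
      simp only [hg]
      rw [div_eq_mul_inv, inv_pow]
    rw [e1] at h1
    exact h1
  have hVd : ∀ (m : ℕ) (s : ℝ), HasDerivAt (Vm F m)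
      ((m : ℝ) ^ 2 * (2 * g s * (-(deriv F s) * g s ^ 2)) +
        (deriv (deriv (deriv F)) s * g s + deriv (deriv F) s * (-(deriv F s) * g s ^ 2)) / 2 -
        (2 * (deriv F s * g s) *
          (deriv (deriv F) s * g s + deriv F s * (-(deriv F s) * g s ^ 2))) / 4) s := by
    intro m s
    rw [hV m]
    have h1 := ((hgd s).pow 2).const_mul ((m : ℝ) ^ 2)
    have h2 := ((hd2.1 s).hasDerivAt.mul (hgd s)).div_const 2
    have h3 := (((hd1.1 s).hasDerivAt.mul (hgd s)).pow 2).div_const 4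
    have h4 := (h1.add h2).sub h3
    have e1 : (fun s => (m : ℝ) ^ 2 * g s ^ 2 + deriv (deriv F) s * g s / 2 -
      (deriv F s * g s) ^ 2 / 4) = (((fun x => (m : ℝ) ^ 2 * (g ^ 2) x) +
        fun x => (deriv (deriv F) * g) x / 2) - fun x => ((deriv F * g) ^ 2) x / 4) := by
      funext x
      rfl
    rw [e1]
    refine h4.congr_deriv ?_
    simp only [Pi.mul_apply]
    norm_num
  set C1 : ℝ := B ^ 2 + K * B / 2 + B ^ 2 / 4 with hC1
  set C2 : ℝ := 2 * B ^ 3 + (K3 * B + K * B ^ 2) / 2 + (2 * B * (K * B + B ^ 2)) / 4 with hC2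
  refine ⟨1 + C1 + C2, ?_, ?_⟩
  · have h1 : 0 ≤ C1 := by positivity
    have h2 : 0 ≤ C2 := by positivity
    linarith
  intro m
  have hC10 : 0 ≤ C1 := by positivity
  have hC20 : 0 ≤ C2 := by positivity
  have hm0 : (0 : ℝ) ≤ (m : ℝ) ^ 2 := by positivity
  have hgsq : ∀ s, g s ^ 2 ≤ B ^ 2 := fun s => pow_le_pow_left₀ (hg0 s).le (hgB s) 2
  have hf1g : ∀ s, |deriv F s * g s| ≤ B := by
    intro s
    rw [abs_mul]
    calc |deriv F s| * |g s| ≤ 1 * B := mul_le_mul (hb.d1 s) (hgabs s) (abs_nonneg _) (by norm_num)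
      _ = B := one_mul B
  have hf1gsq : ∀ s, (deriv F s * g s) ^ 2 ≤ B ^ 2 := by
    intro s
    rw [← sq_abs]
    exact pow_le_pow_left₀ (abs_nonneg _) (hf1g s) 2
  have hf2g : ∀ s, deriv (deriv F) s * g s ≤ K * B := by
    intro s
    exact mul_le_mul (hb.d2 s) (hgB s) (hg0 s).le (by linarith)
  have hf2g0 : ∀ s, 0 ≤ deriv (deriv F) s * g s := fun s => mul_nonneg (hF.convex s) (hg0 s).le
  refine ⟨?_, ?_, ?_⟩
  · intro s
    have e1 := congrFun (hV m) s
    rw [e1]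
    have h1 : (m : ℝ) ^ 2 * g s ^ 2 ≤ (m : ℝ) ^ 2 * B ^ 2 :=
      mul_le_mul_of_nonneg_left (hgsq s) hm0
    have h2 := hf2g s
    have h3 := hf1gsq s
    have h4 := hf2g0 s
    have h5 : 0 ≤ (m : ℝ) ^ 2 * g s ^ 2 := mul_nonneg hm0 (sq_nonneg _)
    have h6 : 0 ≤ (deriv F s * g s) ^ 2 := sq_nonneg _
    have h7 : 0 ≤ (m : ℝ) ^ 2 * C1 := mul_nonneg hm0 hC10
    have h8 : 0 ≤ (m : ℝ) ^ 2 * C2 := mul_nonneg hm0 hC20
    have h9 : 0 ≤ (m : ℝ) ^ 2 * B ^ 2 := mul_nonneg hm0 (sq_nonneg _)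
    have h10 : 0 ≤ (m : ℝ) ^ 2 * (K * B / 2 + B ^ 2 / 4) := by positivity
    have e2 : (1 + C1 + C2) * (1 + (m : ℝ) ^ 2) = 1 + C1 + C2 + (m : ℝ) ^ 2 +
      (m : ℝ) ^ 2 * B ^ 2 + (m : ℝ) ^ 2 * (K * B / 2 + B ^ 2 / 4) + (m : ℝ) ^ 2 * C2 := by
      rw [hC1]
      ring
    rw [abs_le, e2]
    have hB2 : 0 ≤ B ^ 2 := sq_nonneg _
    have hKB : 0 ≤ K * B := by positivity
    constructor
    · linarith
    · linarith
  · intro s
    have e1 := congrFun (hV m) s
    rw [e1]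
    have e2 : (m : ℝ) ^ 2 / F s ^ 2 = (m : ℝ) ^ 2 * g s ^ 2 := by
      simp only [hg]
      rw [div_eq_mul_inv, inv_pow]
    rw [e2]
    have h3 := hf1gsq s
    have h4 := hf2g0 s
    have hB2 : 0 ≤ B ^ 2 := sq_nonneg _
    have hKB : 0 ≤ K * B := by positivity
    linarith
  · intro s r
    have hbd : ∀ x, ‖deriv (Vm F m) x‖ ≤ (1 + C1 + C2) * (1 + (m : ℝ) ^ 2) := by
      intro x
      rw [(hVd m x).deriv, Real.norm_eq_abs]
      have h1 : |(m : ℝ) ^ 2 * (2 * g x * (-(deriv F x) * g x ^ 2))| ≤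
          (m : ℝ) ^ 2 * (2 * B ^ 3) := by
        rw [abs_mul, abs_of_nonneg hm0]
        refine mul_le_mul_of_nonneg_left ?_ hm0
        have e3 : 2 * g x * (-(deriv F x) * g x ^ 2) = -(2 * ((deriv F x * g x) * g x ^ 2)) := by
          ring
        rw [e3, abs_neg, abs_mul, abs_of_pos (by norm_num : (0 : ℝ) < 2), abs_mul,
          abs_of_nonneg (sq_nonneg (g x))]
        have : |deriv F x * g x| * g x ^ 2 ≤ B * B ^ 2 :=
          mul_le_mul (hf1g x) (hgsq x) (sq_nonneg _) hB0.le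
        calc 2 * (|deriv F x * g x| * g x ^ 2) ≤ 2 * (B * B ^ 2) := by linarith
          _ = 2 * B ^ 3 := by ring
      have h2 : |deriv (deriv (deriv F)) x * g x + deriv (deriv F) x * (-(deriv F x) * g x ^ 2)| ≤
          K3 * B + K * B ^ 2 := by
        refine (abs_add_le _ _).trans (add_le_add ?_ ?_)
        · rw [abs_mul]
          exact mul_le_mul (hK3 x) (hgabs x) (abs_nonneg _) hK30
        · have e3 : deriv (deriv F) x * (-(deriv F x) * g x ^ 2) =
              -(deriv (deriv F) x * (deriv F x * g x ^ 2)) := by ring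
          rw [e3, abs_neg, abs_mul, abs_mul, abs_of_nonneg (sq_nonneg (g x))]
          have h5 : |deriv F x| * g x ^ 2 ≤ 1 * B ^ 2 :=
            mul_le_mul (hb.d1 x) (hgsq x) (sq_nonneg _) (by norm_num)
          rw [one_mul] at h5
          exact mul_le_mul (h2abs x) h5 (by positivity) (by linarith)
      have h3 : |2 * (deriv F x * g x) *
          (deriv (deriv F) x * g x + deriv F x * (-(deriv F x) * g x ^ 2))| ≤
          2 * B * (K * B + B ^ 2) := by
        rw [abs_mul, abs_mul, abs_of_pos (by norm_num : (0 : ℝ) < 2)]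
        refine mul_le_mul (mul_le_mul_of_nonneg_left (hf1g x) (by norm_num)) ?_ (abs_nonneg _)
          (by positivity)
        refine (abs_add_le _ _).trans (add_le_add ?_ ?_)
        · rw [abs_of_nonneg (hf2g0 x)]
          exact hf2g x
        · have e3 : deriv F x * (-(deriv F x) * g x ^ 2) = -(deriv F x * g x) ^ 2 := by ring
          rw [e3, abs_neg, abs_of_nonneg (sq_nonneg _)]
          exact hf1gsq x
      have h4 : ∀ a b c : ℝ, |a + b / 2 - c / 4| ≤ |a| + |b| / 2 + |c| / 4 := by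
        intro a b c
        rw [abs_le]
        have := abs_le.1 (le_refl |a|)
        have := abs_le.1 (le_refl |b|)
        have := abs_le.1 (le_refl |c|)
        constructor <;> linarith
      refine (h4 _ _ _).trans ?_
      have e2 : (1 + C1 + C2) * (1 + (m : ℝ) ^ 2) = 1 + C1 + C2 + (m : ℝ) ^ 2 +
        (m : ℝ) ^ 2 * C1 + (m : ℝ) ^ 2 * C2 := by ring
      have e3 : (m : ℝ) ^ 2 * C2 = (m : ℝ) ^ 2 * (2 * B ^ 3) +
        (m : ℝ) ^ 2 * ((K3 * B + K * B ^ 2) / 2 + (2 * B * (K * B + B ^ 2)) / 4) := by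
        rw [hC2]
        ring
      have h7 : 0 ≤ (m : ℝ) ^ 2 * C1 := mul_nonneg hm0 hC10
      have h8 : 0 ≤ (m : ℝ) ^ 2 *
        ((K3 * B + K * B ^ 2) / 2 + (2 * B * (K * B + B ^ 2)) / 4) := by positivity
      have h9 : 0 ≤ 2 * B ^ 3 := by positivity
      rw [e2, e3]
      linarith
    have h := Convex.norm_image_sub_le_of_norm_deriv_le (f := Vm F m) (s := univ) (x := r) (y := s)
      (fun x _ => (hVd m x).differentiableAt) (fun x _ => hbd x) convex_univ (mem_univ r)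
      (mem_univ s)
    rw [Real.norm_eq_abs, Real.norm_eq_abs] at h
    exact h

end Pool.Agent.H87.HF
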